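import Pool.Agent.Helper93.LCH.Stmts

open LCH

namespace LCH65

universe w

theorem frc_aux (A : Type w) [Ring A] [Nontrivial A] (S : Subring A)
    (hu : ∀ x ∈ S, x ≠ 0 → IsUnit x)
    (hO : ∀ a ∈ S, ∀ b ∈ S, b ≠ 0 → ∃ c ∈ S, ∃ d ∈ S, d ≠ 0 ∧ d * a = c * b) :
    ∃ Q : Subring A, (∀ x, x ∈ Q ↔ ∃ a ∈ S, ∃ b ∈ S, b ≠ 0 ∧ b * x = a) ∧ S ≤ Q ∧
      ∀ x ∈ Q, Ring.inverse x ∈ Q := by
  have hmul : ∀ x ∈ S, ∀ y ∈ S, x ≠ 0 → y ≠ 0 → x * y ≠ 0 := by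
    intro x hx y hy hx0 hy0 h
    exact ((hu x hx hx0).mul (hu y hy hy0)).ne_zero h
  refine ⟨{ carrier := {x | ∃ a ∈ S, ∃ b ∈ S, b ≠ 0 ∧ b * x = a}
            mul_mem' := ?_
            one_mem' := ⟨1, S.one_mem, 1, S.one_mem, one_ne_zero, by simp⟩
            add_mem' := ?_
            zero_mem' := ⟨0, S.zero_mem, 1, S.one_mem, one_ne_zero, by simp⟩
            neg_mem' := ?_ }, ?_, ?_, ?_⟩
  · rintro x x' ⟨a, ha, b, hb, hb0, hx⟩ ⟨a', ha', b', hb', hb'0, hx'⟩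
    obtain ⟨c, hc, d, hd, hd0, hdc⟩ := hO a ha b' hb' hb'0
    refine ⟨c * a', S.mul_mem hc ha', d * b, S.mul_mem hd hb, hmul d hd b hb hd0 hb0, ?_⟩
    calc d * b * (x * x') = d * (b * x) * x' := by simp only [mul_assoc]
      _ = d * a * x' := by rw [hx]
      _ = c * b' * x' := by rw [hdc]
      _ = c * (b' * x') := by rw [mul_assoc]
      _ = c * a' := by rw [hx']
  · rintro x x' ⟨a, ha, b, hb, hb0, hx⟩ ⟨a', ha', b', hb', hb'0, hx'⟩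
    obtain ⟨c, hc, d, hd, hd0, hdc⟩ := hO b hb b' hb' hb'0
    refine ⟨d * a + c * a', S.add_mem (S.mul_mem hd ha) (S.mul_mem hc ha'), d * b,
      S.mul_mem hd hb, hmul d hd b hb hd0 hb0, ?_⟩
    calc d * b * (x + x') = d * (b * x) + d * b * x' := by rw [mul_add, mul_assoc]
      _ = d * a + c * b' * x' := by rw [hx, hdc]
      _ = d * a + c * a' := by rw [mul_assoc c, hx']
  · rintro x ⟨a, ha, b, hb, hb0, hx⟩
    exact ⟨-a, S.neg_mem ha, b, hb, hb0, by rw [mul_neg, hx]⟩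
  · intro x
    exact Iff.rfl
  · intro x hx
    exact ⟨x, hx, 1, S.one_mem, one_ne_zero, by simp⟩
  · rintro x ⟨a, ha, b, hb, hb0, hx⟩
    by_cases hxu : IsUnit x
    · have ha0 : a ≠ 0 := by
        rw [← hx]
        exact ((hu b hb hb0).mul hxu).ne_zero
      refine ⟨b, hb, a, ha, ha0, ?_⟩
      rw [← hx, mul_assoc, Ring.mul_inverse_cancel x hxu, mul_one]
    · rw [Ring.inverse_non_unit x hxu]
      exact ⟨0, S.zero_mem, 1, S.one_mem, one_ne_zero, by simp⟩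

theorem st_FRC : ST_FRC.{w} := fun A _ _ S hu hO => frc_aux A S hu hO

end LCH65
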